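import Pool.Agent.H.MP_6da9ed_an.C

set_option autoImplicit false

namespace Pool.Agent.Results.MP_6da9ed_an.No

open Filter Topology
open scoped ENNReal

/-- the numerical radius of an operator on a real space -/
noncomputable def numRad {E : Type} [SeminormedAddCommGroup E] [NormedSpace ℝ E]
    (T : E →L[ℝ] E) : ℝ :=
  sSup {r | ∃ (x : E) (f : E →L[ℝ] ℝ), ‖x‖ = 1 ∧ ‖f‖ = 1 ∧ f x = 1 ∧ r = |f (T x)|}

/-- the numerical index of a real space -/
noncomputable def numIdx (E : Type) [SeminormedAddCommGroup E] [NormedSpace ℝ E] : ℝ :=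
  sInf {r | ∃ T : E →L[ℝ] E, ‖T‖ = 1 ∧ r = numRad T}

/-- the bounded sequences in `E` -/
abbrev Seq (E : Type) [NormedAddCommGroup E] : Type := lp (fun _ : ℕ => E) ∞

/-- the bounded sequences tending to zero along `U` -/
def nullSub (E : Type) [NormedAddCommGroup E] [NormedSpace ℝ E] (U : Ultrafilter ℕ) :
    Submodule ℝ (Seq E) where
  carrier := {x | Tendsto (fun k => ‖x k‖) U (𝓝 0)}
  zero_mem' := by simp
  add_mem' {x y} hx hy := squeeze_zero (fun _ => norm_nonneg _) (fun k => norm_add_le (x k) (y k))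
    (by simpa using Tendsto.add hx hy)
  smul_mem' a x hx := squeeze_zero (fun _ => norm_nonneg _) (fun k => norm_smul_le a (x k))
    (by simpa using Tendsto.const_mul ‖a‖ hx)

/-- the ultrapower -/
abbrev Ultra (E : Type) [NormedAddCommGroup E] [NormedSpace ℝ E] (U : Ultrafilter ℕ) : Type :=
  Seq E ⧸ nullSub E U

open H.MP_6da9ed_an

theorem result : ∃ (E : Type) (_ : NormedAddCommGroup E) (_ : NormedSpace ℝ E),
    CompleteSpace E ∧ 0 < numIdx E ∧ ∀ U : Ultrafilter ℕ, (U : Filter ℕ) ≤ cofinite →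
      (∀ x : Seq E, Tendsto (fun k => ‖x k‖) U (𝓝 ‖(Submodule.Quotient.mk x : Ultra E U)‖)) ∧
      (∃ T : Ultra E U →L[ℝ] Ultra E U, ‖T‖ = 1 ∧ numRad T = 0) ∧ numIdx (Ultra E U) = 0 := by
  refine ⟨X, inferInstance, inferInstance, inferInstance, ?_, fun U hU => ⟨qnorm U _ fun _ => Iff.rfl, ?_⟩⟩
  · have : Nontrivial X := ⟨⟨lp.single ∞ 0 (mk 1 0), 0, fun h => by
      have := congrArg norm h
      rw [lp.norm_single (by simp), norm_mk0] at this
      simp at this⟩⟩
    refine lt_of_lt_of_le (by norm_num : (0 : ℝ) < 1 / 1500) (le_csInf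
      ⟨_, ContinuousLinearMap.id ℝ X, ContinuousLinearMap.norm_id, rfl⟩ ?_)
    rintro _ ⟨T, hT, rfl⟩
    have := lower T (v := numRad T) fun x f hx hf h => le_csSup ⟨1, by
      rintro _ ⟨x, f, hx, hf, -, rfl⟩
      have h1 := f.le_opNorm (T x)
      have h2 := T.le_opNorm x
      rw [hf, one_mul] at h1
      rw [hT, hx, one_mul] at h2
      exact le_trans h1 h2⟩ ⟨x, f, hx, hf, h, rfl⟩
    linarith
  · obtain ⟨T, hT, h⟩ := ultra U hU (nullSub X U) fun _ => Iff.rfl
    have p : ∀ S : Ultra X U →L[ℝ] Ultra X U, 0 ≤ numRad S := fun S =>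
      Real.sSup_nonneg (by rintro _ ⟨x, f, -, -, -, rfl⟩; exact abs_nonneg _)
    have z : numRad T = 0 := le_antisymm (Real.sSup_nonpos (by
      rintro _ ⟨x, f, hx, hf, e, rfl⟩
      rw [h x f hx hf e, abs_zero])) (p T)
    refine ⟨⟨T, hT, z⟩, le_antisymm (csInf_le ⟨0, ?_⟩ ⟨T, hT, z.symm⟩) (Real.sInf_nonneg ?_)⟩ <;>
    · rintro _ ⟨S, -, rfl⟩; exact p S

end Pool.Agent.Results.MP_6da9ed_an.No
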